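import Mathlib

namespace Pool.Agent.Results.MP_8926dc_co.Counter

/-- the number of `j`-element vertex sets spanning a clique -/
noncomputable def k {n : ℕ} (j : ℕ) (G : SimpleGraph (Fin n)) : ℕ :=
  {s : Finset (Fin n) | G.IsNClique j s}.ncard

def f (j s t : ℕ) : ℕ := s.choose j + t.choose (j - 1)

/-- `K_8` minus the two disjoint edges `01` and `23` -/
def G0 : SimpleGraph (Fin 8) where
  Adj a b := a ≠ b ∧ ¬ (a.val < 4 ∧ a.val / 2 = b.val / 2)
  symm := ⟨by intro a b h; exact ⟨h.1.symm, by omega⟩⟩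
  loopless := ⟨fun a h => h.1 rfl⟩

instance : DecidableRel G0.Adj := fun a b => by unfold G0; infer_instance

lemma k_eq (j : ℕ) : k j G0 = (G0.cliqueFinset j).card := by
  rw [k, ← Set.ncard_coe_finset, SimpleGraph.coe_cliqueFinset]; rfl

theorem result : ¬ ∀ p r s t : ℕ, 3 ≤ p → p < r → r ≤ s → p - 2 ≤ t → t < s →
    ∀ (n : ℕ) (G : SimpleGraph (Fin n)), k p G ≤ f p s (t + 1) - 1 → k r G ≤ f r s t := by
  intro h
  have h3 : k 3 G0 = 44 := by rw [k_eq]; decide +kernel
  have h4 : k 4 G0 = 41 := by rw [k_eq]; decide +kernel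
  have := h 3 4 7 4 (by norm_num) (by norm_num) (by norm_num) (by norm_num) (by norm_num) 8 G0
    (by rw [h3]; decide)
  rw [h4] at this
  revert this
  decide

end Pool.Agent.Results.MP_8926dc_co.Counter
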